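import Pool.Agent.U66.UP.Tm

set_option autoImplicit false

/-!
# MP_c32da3_lc: a uniform bound for tameness

For every cardinal `κ` there is a cardinal `H ≥ κ` such that every abstract elementary class with
vocabulary and Löwenheim-Skolem number at most `κ` which is tame down to some cardinal is tame
down to `H`. So if eventual Galois stability forces tameness at all, then it forces `(H, ∞)`-tameness
with `H` depending on the Löwenheim-Skolem number only.
-/

namespace Pool.Agent.Results.MP_c32da3_lc.TamenessBound

open Cardinal FirstOrder
open Pool.Agent.H288R4.LS (AEC)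
open Pool.Agent.U66.UP (Tame hanf_tame)

universe u

theorem result (κ : Cardinal.{u}) :
    ∃ H : Cardinal.{u}, κ ≤ H ∧ ∀ (L : FirstOrder.Language.{u, u}) (K : AEC L), K.LSat κ →
      (∃ χ : Cardinal.{u}, Tame K χ) → Tame K H :=
  hanf_tame κ

end Pool.Agent.Results.MP_c32da3_lc.TamenessBound
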